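import Pool.Agent.Run7.h193.BraidFinal

/-!
# Closed braid diagrams which are weakly successively almost positive

If a closed braid diagram is weakly successively almost positive (for any number of negative
crossings, all of them on one overarc), then its closure is strongly quasipositive.
-/

open Run7.h193

theorem Pool.Agent.Results.MP_41dcdb_gt.ClosedBraid.result :
    ∀ (n : ℕ) (w : List (Fin n × Bool)), ClosedBraidWSAP w →
      ∃ (m : ℕ) (β : Braid m), IsStronglyQuasipositive β ∧
        MarkovEquiv ⟨n, wordBraid w⟩ ⟨m, β⟩ :=
  fun _ w hw => closedBraid_wsap w hw
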